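import Pool.Agent.MP_be2dd8_ag.H53D.All

/-! Dynamical Mordell-Lang for coordinatewise polynomial maps along every ray of exponents,
arbitrary polynomials, starting points and subvarieties. -/

set_option autoImplicit false

namespace Pool.Agent.Results.MP_be2dd8_ag.AllRays

theorem result :
    ∀ (N : ℕ) (α : Fin N → ℂ) (f : Fin N → Polynomial ℂ),
      ∃ P : ℕ, 0 < P ∧ ∀ (T : Set (MvPolynomial (Fin N) ℂ)) (γ h : Fin N → ℕ),
        ∃ (k : ℕ) (a b : Fin k → ℕ), (∀ j, b j = 0 ∨ b j = P) ∧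
          {t : ℕ | ∀ p ∈ T, MvPolynomial.eval
              (fun i => Nat.iterate (fun z => (f i).eval z) (γ i + t * h i) (α i)) p = 0}
            = {t : ℕ | ∃ (j : Fin k) (s : ℕ), t = a j + b j * s} :=
  fun _ α f => Pool.Agent.MP_be2dd8_ag.H53D.main α f

end Pool.Agent.Results.MP_be2dd8_ag.AllRays
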