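import Pool.Agent.MP_be2dd8_ag.H53.Final

/-! Dynamical Mordell-Lang for coordinatewise polynomial semigroup orbits, arbitrary subvarieties
and arbitrary degrees, for orbits that are finite, of monomial type or unbounded at one place of
residue characteristic zero. -/

set_option autoImplicit false

namespace Pool.Agent.Results.MP_be2dd8_ag.FunctionField

theorem result :
    ∀ (N : ℕ) (α : Fin N → ℂ) (f : Fin N → Polynomial ℂ) (T : Set (MvPolynomial (Fin N) ℂ))
      (K k : Type) [Field K] [Field k] [CharZero k] (e : K →+* ℂ) (ι : K →+* LaurentSeries k)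
      (a : Fin N → K) (g : Fin N → Polynomial K) (x : Fin N → ℕ → K),
      (∀ i, α i = e (a i)) → (∀ i, f i = (g i).map e) →
      (∀ i n, x i n = Nat.iterate (fun z => (g i).eval z) n (a i)) →
      (∀ i, 1 < (f i).natDegree) →
      (∀ i, (Set.range (x i)).Finite ∨ (∀ B : ℤ, ∃ n, (ι (x i n)).order < B) ∨
        ∃ (b c d β : K) (u : ℕ → K), ∀ n, u n ≠ 0 ∧ u (n + 1) = β * u n ^ (f i).natDegree ∧
          x i n = b * u n + c + d / u n) →
      ∃ (m : ℕ) (γ : Fin m → Fin N → ℕ) (H : Fin m → AddSubgroup (Fin N → ℤ)),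
        {n : Fin N → ℕ | ∀ p ∈ T,
            MvPolynomial.eval (fun i => Nat.iterate (fun z => (f i).eval z) (n i) (α i)) p = 0}
          = {n : Fin N → ℕ | ∃ j : Fin m, ∃ h ∈ H j,
              (∀ i, 0 ≤ h i) ∧ ∀ i, (n i : ℤ) = (γ j i : ℤ) + h i} := by
  intro N α f T K k _ _ _ e ι a g x hα hf hx hd h
  have h1 : ∀ i, (f i).natDegree = (g i).natDegree := fun i => by
    rw [hf, Polynomial.natDegree_map]
  have h2 : ∀ i n, x i (n + 1) = (g i).eval (x i n) := fun i n => by
    rw [hx, hx, Function.iterate_succ_apply']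
  have h3 : ∀ i n, Nat.iterate (fun z => (f i).eval z) n (α i) = e (x i n) := by
    intro i n
    induction n with
    | zero => rw [hx]; exact hα i
    | succ n ih =>
      rw [Function.iterate_succ_apply', ih, h2, hf, Polynomial.eval_map, Polynomial.eval₂_at_apply]
  simp only [h1] at hd h
  simp only [h3]
  exact Pool.Agent.MP_be2dd8_ag.H53.main e ι g x h2 hd h T

end Pool.Agent.Results.MP_be2dd8_ag.FunctionField
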