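import Pool.Agent.MP_be2dd8_ag.H15.Main

/-! Dynamical Mordell-Lang for coordinatewise polynomial semigroup orbits, arbitrary subvarieties,
multiplicatively dependent degrees, orbits that are finite, integral or escape along a rational
ray. -/

set_option autoImplicit false

namespace Pool.Agent.Results.MP_be2dd8_ag.RationalRays

open Filter Topology

theorem result :
    ∀ (N : ℕ) (α : Fin N → ℂ) (f : Fin N → Polynomial ℂ) (T : Set (MvPolynomial (Fin N) ℂ))
      (d : ℕ) (x : Fin N → ℕ → ℂ),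
      (∀ i n, x i n = Nat.iterate (fun z => (f i).eval z) n (α i)) →
      (∀ i, 1 < (f i).natDegree) →
      (∀ i, (Set.range (x i)).Finite ∨ ((∃ k : ℕ, (f i).natDegree = d ^ k) ∧
        ((∀ n, ∃ m : ℤ, x i n = (m : ℂ)) ∨ (¬ Bornology.IsBounded (Set.range (x i)) ∧
          ∃ (q : ℕ) (ζ : ℂ), 0 < q ∧
            Tendsto (fun n => (x i n / ((‖x i n‖ : ℝ) : ℂ)) ^ q) atTop (𝓝 ζ))))) →
      ∃ (k : ℕ) (γ : Fin k → Fin N → ℕ) (H : Fin k → AddSubgroup (Fin N → ℤ)),
        {n : Fin N → ℕ | ∀ p ∈ T, MvPolynomial.eval (fun i => x i (n i)) p = 0}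
          = {n : Fin N → ℕ | ∃ j : Fin k, ∃ h ∈ H j,
              (∀ i, 0 ≤ h i) ∧ ∀ i, (n i : ℤ) = (γ j i : ℤ) + h i} :=
  fun _ _ f T d x hx hf h => Pool.Agent.MP_be2dd8_ag.H15.main f x d
    (fun i n => by rw [hx, hx, Function.iterate_succ_apply']) hf h T

end Pool.Agent.Results.MP_be2dd8_ag.RationalRays
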