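import Pool.Agent.MP_be2dd8_ag.H81.All

/-! Dynamical Mordell-Lang for coordinatewise polynomial semigroup orbits, arbitrary subvarieties
and arbitrary polynomials, for starting points that are preperiodic, of monomial type or
transcendental over the coefficients. -/

set_option autoImplicit false

namespace Pool.Agent.Results.MP_be2dd8_ag.Transcendental

open Pool.Agent.MP_be2dd8_ag.H81

theorem result :
    ∀ (N : ℕ) (α : Fin N → ℂ) (f : Fin N → Polynomial ℂ) (T : Set (MvPolynomial (Fin N) ℂ))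
      (k : Fin N → Subfield ℂ) (x : Fin N → ℕ → ℂ),
      (∀ i n, x i n = Nat.iterate (fun z => (f i).eval z) n (α i)) →
      (∀ i, 1 < (f i).natDegree) → (∀ i j, k i ≤ k j ∨ k j ≤ k i) →
      (∀ i, (Set.range (x i)).Finite ∨
        ((∀ l, (f i).coeff l ∈ k i) ∧ Transcendental (k i) (α i)) ∨
        ∃ (b c d β : ℂ) (u : ℕ → ℂ), ∀ n, u n ≠ 0 ∧ u (n + 1) = β * u n ^ (f i).natDegree ∧
          x i n = b * u n + c + d / u n) →
      ∃ (m : ℕ) (γ : Fin m → Fin N → ℕ) (H : Fin m → AddSubgroup (Fin N → ℤ)),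
        {n : Fin N → ℕ | ∀ p ∈ T, MvPolynomial.eval (fun i => x i (n i)) p = 0}
          = {n : Fin N → ℕ | ∃ j : Fin m, ∃ h ∈ H j,
              (∀ i, 0 ≤ h i) ∧ ∀ i, (n i : ℤ) = (γ j i : ℤ) + h i} := by
  intro N α f T k x hx hf hk h
  have h0 : ∀ i, x i 0 = α i := fun i => hx i 0
  exact main_of rowExp allUni rowCtx (rowPar rowExp).1 allInd f x k
    (fun i n => by rw [h0, hx]; rfl) hf hk (by simpa only [h0] using h) T

end Pool.Agent.Results.MP_be2dd8_ag.Transcendental
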